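import Pool.Agent.Work.MP_4c4335_dv.Def

/-!
# Block B10: the test polynomial
-/

open Polynomial Finset Filter

namespace Pool.Agent.Work.MP_4c4335_dv

namespace B10

theorem norm_ez (θ : ℝ) : ‖ez θ‖ = 1 := Complex.norm_exp_ofReal_mul_I θ

/-- products of factors -/
theorem prod_bounds {F : ℂ → ℚ[X]} {D : ℕ} {a : ℝ} {z : ℂ} (ha : 0 ≤ a)
    (h1 : ∀ β, (F β).natDegree ≤ D) (h2 : ∀ β, ∀ x : ℂ, ‖x‖ = 1 → ‖aeval x (F β)‖ ≤ 1)
    (h3 : ∀ β, a ≤ ‖aeval z (F β)‖) (s : Multiset ℂ) :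
    ((s.map F).prod).natDegree ≤ Multiset.card s * D ∧
      (∀ x : ℂ, ‖x‖ = 1 → ‖aeval x (s.map F).prod‖ ≤ 1) ∧
      a ^ (Multiset.card s) ≤ ‖aeval z (s.map F).prod‖ := by
  induction s using Multiset.induction_on with
  | empty => simp
  | cons β s ih =>
    obtain ⟨i1, i2, i3⟩ := ih
    rw [Multiset.map_cons, Multiset.prod_cons, Multiset.card_cons]
    refine ⟨?_, ?_, ?_⟩
    · refine (natDegree_mul_le).trans ?_
      have := h1 β
      calc (F β).natDegree + ((s.map F).prod).natDegree ≤ D + Multiset.card s * D := by omega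
        _ = (Multiset.card s + 1) * D := by ring
    · intro x hx
      rw [map_mul, norm_mul]
      exact mul_le_one₀ (h2 β x hx) (norm_nonneg _) (i2 x hx)
    · rw [map_mul, norm_mul, pow_succ, mul_comm]
      exact mul_le_mul (h3 β) i3 (by positivity) (norm_nonneg _)

end B10

open B10

theorem p_B10 (h7 : S_B7) : S_B10 := by
  intro m hm θ ⟨c, hc0, hc1, hc⟩
  obtain ⟨hA, hB⟩ := h7
  obtain ⟨n, rfl⟩ : ∃ n, m = n + 1 := ⟨m - 1, by omega⟩
  obtain ⟨K, hK⟩ : ∃ K : ℕ, (32 : ℝ) ^ (2 * n + 1) / c ^ 2 ≤ K := exists_nat_ge _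
  have hK0 : 0 < K := by
    have h1 : (0 : ℝ) < (32 : ℝ) ^ (2 * n + 1) / c ^ 2 := by positivity
    exact_mod_cast h1.trans_le hK
  refine ⟨256 * K + 1, ?_⟩
  intro l hl g hg hdeg hroot
  have hl0 : 0 < l := by omega
  have hlr : (8 : ℝ) ≤ l := by exact_mod_cast hl
  obtain ⟨L, hL⟩ : ∃ L, L = K * l ^ (4 * n + 1) := ⟨_, rfl⟩
  have hL0 : 0 < L := by rw [hL]; positivity
  have hz := norm_ez θ
  have key : ∀ β : ℂ, ∃ F : ℚ[X], (aeval β g = 0 → (X - C β) ∣ F.map (algebraMap ℚ ℂ)) ∧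
      F.natDegree ≤ 64 * l ^ 2 * L ∧ (∀ x : ℂ, ‖x‖ = 1 → ‖aeval x F‖ ≤ 1) ∧
      1 - 1 / (8 * (l : ℝ)) ≤ ‖aeval (ez θ) F‖ := by
    intro β
    have hpos : 0 ≤ 1 / (8 * (l : ℝ)) := by positivity
    by_cases h : aeval β g = 0
    · rcases hroot β h with rfl | ⟨q, hq0, hq1, hq2⟩
      · refine ⟨X, fun _ => by simp, ?_, ?_, ?_⟩
        · rw [natDegree_X]
          have : 0 < 64 * l ^ 2 * L := by positivity
          omega
        · intro x hx
          rw [aeval_X, hx]
        · rw [aeval_X, hz]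
          linarith
      · refine ⟨fil q L, fun _ => ?_, ?_, ?_, ?_⟩
        · have e1 := (Polynomial.map_dvd_map' (algebraMap ℚ ℂ)).2 (hA q L).1
          refine dvd_trans ?_ e1
          rw [Polynomial.map_sub, Polynomial.map_pow, Polynomial.map_X, Polynomial.map_one,
            dvd_iff_isRoot, IsRoot.def, eval_sub, eval_pow, eval_X, eval_one, hq2, sub_self]
        · refine (hA q L).2.trans ?_
          calc 2 * q * L ≤ 2 * (32 * l ^ 2) * L := by gcongr
            _ = 64 * l ^ 2 * L := by ring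
        · intro x hx
          exact (hB q L x hx).1
        · refine le_trans ?_ (hB q L (ez θ) hz).2
          have e1 := hc q hq0
          rw [Nat.add_sub_cancel] at e1
          have hqr : (0 : ℝ) < q := by exact_mod_cast hq0
          have hql : (q : ℝ) ≤ 32 * (l : ℝ) ^ 2 := by exact_mod_cast hq1
          have e2 : c / (32 * (l : ℝ) ^ 2) ^ n ≤ ‖ez θ ^ q - 1‖ := by
            refine le_trans ?_ e1
            gcongr
          have e3 : (c / (32 * (l : ℝ) ^ 2) ^ n) ^ 2 ≤ ‖ez θ ^ q - 1‖ ^ 2 := by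
            gcongr
          have e4 : (32 : ℝ) ^ (2 * n + 1) ≤ K * c ^ 2 := by
            rw [div_le_iff₀ (by positivity)] at hK
            exact hK
          have e5 : 8 * (l : ℝ) ≤ (L : ℝ) * (c / (32 * (l : ℝ) ^ 2) ^ n) ^ 2 / 4 := by
            have hLr : (L : ℝ) = K * (l : ℝ) ^ (4 * n + 1) := by rw [hL]; push_cast; ring
            have hd : (0 : ℝ) < ((32 * (l : ℝ) ^ 2) ^ n) ^ 2 := by positivity
            have e6 : (L : ℝ) * (c / (32 * (l : ℝ) ^ 2) ^ n) ^ 2 / 4 =
                (K * c ^ 2) * (l : ℝ) ^ (4 * n + 1) / (4 * ((32 * (l : ℝ) ^ 2) ^ n) ^ 2) := by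
              rw [hLr, div_pow]
              field_simp
            rw [e6, le_div_iff₀ (by positivity)]
            have e7 : 8 * (l : ℝ) * (4 * ((32 * (l : ℝ) ^ 2) ^ n) ^ 2) = (32 : ℝ) ^ (2 * n + 1) * (l : ℝ) ^ (4 * n + 1) := by
              rw [mul_pow, ← pow_mul]
              ring
            rw [e7]
            gcongr
          have e8 : 8 * (l : ℝ) ≤ L * ‖ez θ ^ q - 1‖ ^ 2 / 4 := by
            refine e5.trans ?_
            gcongr
          have e9 : Real.exp (-(L * ‖ez θ ^ q - 1‖ ^ 2 / 4)) ≤ 1 / (8 * (l : ℝ)) := by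
            calc Real.exp (-(L * ‖ez θ ^ q - 1‖ ^ 2 / 4)) ≤ Real.exp (-(8 * (l : ℝ))) := by
                  apply Real.exp_le_exp.2
                  linarith
              _ = 1 / Real.exp (8 * (l : ℝ)) := by rw [Real.exp_neg, one_div]
              _ ≤ 1 / (8 * (l : ℝ)) := by
                  apply one_div_le_one_div_of_le (by positivity)
                  have := Real.add_one_le_exp (8 * (l : ℝ))
                  linarith
          linarith
    · refine ⟨1, fun h' => absurd h' h, by simp, by simp, ?_⟩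
      rw [map_one, norm_one]
      linarith
  choose F f1 f2 f3 f4 using key
  obtain ⟨p, hp⟩ : ∃ p : ℂ[X], p = g.map (algebraMap ℚ ℂ) := ⟨_, rfl⟩
  have hp0 : p ≠ 0 := by
    rw [hp]
    exact (Polynomial.map_ne_zero_iff (algebraMap ℚ ℂ).injective).2 hg
  have hcard : Multiset.card p.roots = p.natDegree := IsAlgClosed.card_roots_eq_natDegree
  have hnd : p.natDegree = g.natDegree := by
    rw [hp]; exact natDegree_map _
  have hc4 : Multiset.card p.roots < 4 * l := by rw [hcard, hnd]; exact hdeg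
  have hb : 1 / (8 * (l : ℝ)) ≤ 1 := by
    rw [div_le_one (by positivity)]
    linarith
  obtain ⟨y1, y2, y3⟩ := prod_bounds (F := F) (D := 64 * l ^ 2 * L) (a := 1 - 1 / (8 * (l : ℝ))) (z := ez θ)
    (by linarith) f2 f3 f4 p.roots
  refine ⟨(p.roots.map F).prod, ?_, ?_, y2, ?_⟩
  · rw [← Polynomial.map_dvd_map' (algebraMap ℚ ℂ), ← hp, Polynomial.map_multiset_prod, Multiset.map_map]
    have e1 := C_leadingCoeff_mul_prod_multiset_X_sub_C hcard
    rw [← e1]
    have hu : IsUnit (C p.leadingCoeff) := by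
      rw [isUnit_C, isUnit_iff_ne_zero]
      exact leadingCoeff_ne_zero.2 hp0
    rw [hu.mul_left_dvd]
    rw [e1]
    apply Multiset.prod_dvd_prod_of_dvd
    intro β hβ
    apply f1 β
    have h1 := (mem_roots hp0).1 hβ
    rw [hp, IsRoot.def, eval_map_algebraMap] at h1
    exact h1
  · calc ((p.roots.map F).prod).natDegree ≤ Multiset.card p.roots * (64 * l ^ 2 * L) := y1
      _ ≤ (4 * l) * (64 * l ^ 2 * L) := Nat.mul_le_mul_right _ hc4.le
      _ = 256 * K * l ^ (4 * (n + 1)) := by rw [hL]; ring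
      _ < (256 * K + 1) * l ^ (4 * (n + 1)) := by
        have : 0 < l ^ (4 * (n + 1)) := by positivity
        rw [add_mul]
        omega
  · refine le_trans ?_ y3
    have h1 := one_add_mul_le_pow (a := -(1 / (8 * (l : ℝ)))) (by linarith) (Multiset.card p.roots)
    have h2 : (Multiset.card p.roots : ℝ) ≤ 4 * l := by exact_mod_cast hc4.le
    have h3 : (Multiset.card p.roots : ℝ) * (1 / (8 * (l : ℝ))) ≤ 1 / 2 := by
      calc (Multiset.card p.roots : ℝ) * (1 / (8 * (l : ℝ))) ≤ (4 * l) * (1 / (8 * (l : ℝ))) := by gcongr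
        _ = 1 / 2 := by field_simp; norm_num
    have h4 : (1 + -(1 / (8 * (l : ℝ)))) = 1 - 1 / (8 * (l : ℝ)) := by ring
    rw [h4] at h1
    linarith

end Pool.Agent.Work.MP_4c4335_dv
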