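import Pool.Agent.Work.MP_4c4335_dv.Def

/-!
# Block B12: all moduli
-/

open Polynomial Finset Filter

namespace Pool.Agent.Work.MP_4c4335_dv

namespace BB12

lemma norm_ez (θ : ℝ) : ‖ez θ‖ = 1 := by
  unfold ez
  exact Complex.norm_exp_ofReal_mul_I θ

lemma natDegree_SQ {z : ℂ} {l : ℕ} {P : ℚ[X]} (hP : P ∈ SQ z l) : P.natDegree < MM l := by
  obtain ⟨Q, hQ, rfl⟩ := hP
  exact lt_of_le_of_lt natDegree_map_le hQ.1

lemma exists_ne_zero {z : ℂ} {l : ℕ} {g : ℚ[X]} (hg : Ideal.span (SQ z l) = Ideal.span {g})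
    (hg0 : g ≠ 0) : ∃ P ∈ SQ z l, P ≠ 0 := by
  by_contra h
  push Not at h
  apply hg0
  have h1 : g ∈ Ideal.span (SQ z l) := by
    rw [hg]
    exact Ideal.mem_span_singleton_self g
  have h2 : Ideal.span (SQ z l) ≤ ⊥ := by
    rw [Ideal.span_le]
    intro P hP
    rw [h P hP]
    exact Submodule.zero_mem _
  exact (Submodule.mem_bot _).1 (h2 h1)

/-- the shifts of the small polynomials -/
def VV (z : ℂ) (l J : ℕ) : Set ℤ[X] := {v | ∃ Q ∈ SZ z l, ∃ j < J, v = X ^ j * Q}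

lemma span_le_VV (z : ℂ) (l J : ℕ) :
    {R : ℚ[X] | ∃ P ∈ SQ z l, ∃ j < J, R = X ^ j * P} ⊆
      (fun Q : ℤ[X] => Q.map (Int.castRingHom ℚ)) '' (VV z l J) := by
  rintro R ⟨P, ⟨Q, hQ, rfl⟩, j, hj, rfl⟩
  refine ⟨X ^ j * Q, ⟨Q, hQ, j, hj, rfl⟩, ?_⟩
  simp only [Polynomial.map_mul, Polynomial.map_pow, Polynomial.map_X]

lemma VV_spec {z : ℂ} (hz : ‖z‖ = 1) {l J N : ℕ} (hN : J + MM l ≤ N) :
    ∀ v ∈ VV z l J, v.natDegree < N ∧ (∀ i, |v.coeff i| ≤ 1) ∧ ‖aeval z v‖ ≤ (1 / 2) ^ l := by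
  rintro v ⟨Q, ⟨hQ1, hQ2, hQ3⟩, j, hj, rfl⟩
  refine ⟨?_, ?_, ?_⟩
  · refine lt_of_le_of_lt natDegree_mul_le ?_
    rw [natDegree_X_pow]
    omega
  · intro i
    rw [coeff_X_pow_mul']
    split_ifs
    · exact hQ2 _
    · simp
  · rw [map_mul, map_pow, aeval_X, norm_mul, norm_pow, hz, one_pow, one_mul]
    exact hQ3

lemma deg_bound (A l m : ℕ) (hm : 1 ≤ m) (hl : 8 ≤ l) :
    max (2 * MM l) (A * l ^ (4 * m)) + MM l ≤ (3072 + A) * l ^ (4 * m) := by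
  have h1 : l ^ 3 ≤ l ^ (4 * m) := Nat.pow_le_pow_right (by omega) (by omega)
  have h2 : MM l ≤ 1024 * l ^ (4 * m) := Nat.mul_le_mul_left _ h1
  have h3 : max (2 * MM l) (A * l ^ (4 * m)) ≤ 2 * MM l + A * l ^ (4 * m) :=
    max_le (Nat.le_add_right _ _) (Nat.le_add_left _ _)
  calc max (2 * MM l) (A * l ^ (4 * m)) + MM l
      ≤ 2 * MM l + A * l ^ (4 * m) + MM l := Nat.add_le_add_right h3 _
    _ ≤ 2 * (1024 * l ^ (4 * m)) + A * l ^ (4 * m) + 1024 * l ^ (4 * m) := by omega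
    _ = (3072 + A) * l ^ (4 * m) := by ring

end BB12

open BB12 in
theorem p_B12 (h5 : S_B5) (h6 : S_B6) (h8 : S_B8) (h9 : S_B9) (h10 : S_B10) (h11 : S_B11) :
    S_B12 := by
  intro m hm θ hDC
  have hz := norm_ez θ
  obtain ⟨A10, hA10⟩ := h10 m hm θ (h9 m hm θ hDC)
  refine ⟨3072 + A10, fun l hl hN r hr0 hr1 => ?_⟩
  set g : ℚ[X] := Submodule.IsPrincipal.generator (Ideal.span (SQ (ez θ) l)) with hgdef
  have hg : Ideal.span (SQ (ez θ) l) = Ideal.span {g} :=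
    (Ideal.span_singleton_generator _).symm
  obtain ⟨hg0, hgdeg, hgroots⟩ := h5 (ez θ) hz l hl g hg
  obtain ⟨y, hgy, hydeg, hysup, hyz⟩ := hA10 l hl g hg0 hgdeg hgroots
  have hyI : y ∈ Ideal.span (SQ (ez θ) l) := by
    rw [hg]
    exact Ideal.mem_span_singleton.2 hgy
  have hspan := h6 (SQ (ez θ) l) (MM l) (fun P hP => natDegree_SQ hP) (exists_ne_zero hg hg0) y hyI
    (max (2 * MM l) (A10 * l ^ (4 * m))) (le_max_left _ _) (lt_of_lt_of_le hydeg (le_max_right _ _))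
  have hspan2 := Submodule.span_mono (span_le_VV (ez θ) l (max (2 * MM l) (A10 * l ^ (4 * m))))
    hspan
  exact h11 (ez θ) ((3072 + A10) * l ^ (4 * m)) ((1 / 2) ^ l) _ hz (by positivity) hN
    (VV_spec hz (deg_bound A10 l m hm hl)) y hspan2 (h8 y hysup) hyz r hr0 hr1

end Pool.Agent.Work.MP_4c4335_dv
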