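import Pool.Agent.Work.MP_4c4335_dv.Def

/-!
# MP_4c4335_nt: block B13, all arguments
-/

namespace Pool.Agent.Work.MP_4c4335_dv

namespace B13

theorem ez_pow (θ : ℝ) (j : ℕ) : ez θ ^ j = Complex.exp (((j : ℝ) * θ : ℝ) * Complex.I) := by
  unfold ez
  rw [← Complex.exp_nat_mul]
  congr 1
  push_cast
  ring

/-- a multiple of `θ` which is small and non-zero modulo `2π` -/
theorem small_step (θ : ℝ) (h : ∀ q : ℕ, 0 < q → ez θ ^ q ≠ 1) : ∃ (j : ℕ) (m : ℤ),
    0 < |(j : ℝ) * θ - m * (2 * Real.pi)| ∧ |(j : ℝ) * θ - m * (2 * Real.pi)| < 1 / 100 := by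
  have hpi := Real.pi_lt_d2
  have hpi0 := Real.pi_pos
  set T : ℝ := 2 * Real.pi with hT
  have hT0 : 0 < T := by positivity
  set f : ℕ → ℝ := fun j => toIcoMod hT0 0 ((j : ℝ) * θ) with hf
  have f0 : ∀ j, 0 ≤ f j := fun j => (toIcoMod_mem_Ico hT0 0 _).1
  have f1 : ∀ j, f j < T := fun j => by
    have := (toIcoMod_mem_Ico hT0 0 ((j : ℝ) * θ)).2
    rwa [zero_add] at this
  have fe : ∀ j, f j = (j : ℝ) * θ - (toIcoDiv hT0 0 ((j : ℝ) * θ) : ℤ) * T := fun j => by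
    have := self_sub_toIcoDiv_zsmul hT0 0 ((j : ℝ) * θ)
    rw [zsmul_eq_mul] at this
    exact this.symm
  have key : ∀ a b : ℕ, a < b → |f a - f b| < 1 / 100 → ∃ (j : ℕ) (m : ℤ),
      0 < |(j : ℝ) * θ - m * T| ∧ |(j : ℝ) * θ - m * T| < 1 / 100 := by
    intro a b hab hd
    have e : ((b - a : ℕ) : ℝ) * θ - ((toIcoDiv hT0 0 ((b : ℝ) * θ) - toIcoDiv hT0 0 ((a : ℝ) * θ) : ℤ) : ℝ) * T
        = - (f a - f b) := by
      rw [fe a, fe b, Nat.cast_sub hab.le]
      push_cast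
      ring
    refine ⟨b - a, toIcoDiv hT0 0 ((b : ℝ) * θ) - toIcoDiv hT0 0 ((a : ℝ) * θ), ?_, ?_⟩
    · rw [abs_pos]
      intro h0
      apply h (b - a) (by omega)
      rw [ez_pow]
      have h1 : ((b - a : ℕ) : ℝ) * θ
          = ((toIcoDiv hT0 0 ((b : ℝ) * θ) - toIcoDiv hT0 0 ((a : ℝ) * θ) : ℤ) : ℝ) * T := by
        linarith
      rw [h1]
      generalize (toIcoDiv hT0 0 ((b : ℝ) * θ) - toIcoDiv hT0 0 ((a : ℝ) * θ)) = u
      rw [hT]
      have h2 := Complex.exp_int_mul_two_pi_mul_I u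
      rw [← h2]
      congr 1
      push_cast
      ring
    · rw [e, abs_neg]
      exact hd
  obtain ⟨a, ha, b, hb, hab, he⟩ := Finset.exists_ne_map_eq_of_card_lt_of_maps_to
    (s := Finset.range 631) (t := Finset.range 630) (f := fun j => ⌊f j * 100⌋₊)
    (by simp) (by
      intro j _
      simp only [Finset.coe_range, Set.mem_Iio]
      rw [Nat.floor_lt (by have := f0 j; positivity)]
      have := f1 j
      push_cast
      nlinarith)
  have hc : |f a - f b| < 1 / 100 := by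
    have a1 := Nat.floor_le (show 0 ≤ f a * 100 by have := f0 a; positivity)
    have a2 := Nat.lt_floor_add_one (f a * 100)
    have b1 := Nat.floor_le (show 0 ≤ f b * 100 by have := f0 b; positivity)
    have b2 := Nat.lt_floor_add_one (f b * 100)
    rw [he] at a1 a2
    rw [abs_lt]
    constructor <;> linarith
  rcases lt_or_gt_of_ne hab with h1 | h1
  · exact key a b h1 hc
  · exact key b a h1 (by rw [abs_sub_comm]; exact hc)

/-- the multiples of `δ` reach every angle -/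
theorem reach (T δ α : ℝ) (hT : 0 < T) (h0 : 0 < |δ|) (h1 : |δ| < 1 / 100) (ha : 0 ≤ α) (hb : α ≤ T) :
    ∃ n ≤ ⌊T / |δ|⌋₊, ∃ s : ℤ, |(n : ℝ) * δ - (α + s * T)| < 1 / 100 := by
  rcases lt_or_ge δ 0 with hδ | hδ
  · rw [abs_of_neg hδ] at h0 h1 ⊢
    refine ⟨⌊(T - α) / (-δ)⌋₊, Nat.floor_le_floor (by
      apply div_le_div_of_nonneg_right _ h0.le
      linarith), -1, ?_⟩
    have c1 := Nat.floor_le (show 0 ≤ (T - α) / (-δ) from div_nonneg (by linarith) h0.le)
    have c2 := Nat.lt_floor_add_one ((T - α) / (-δ))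
    rw [le_div_iff₀ h0] at c1
    rw [div_lt_iff₀ h0] at c2
    push_cast
    rw [abs_lt]
    constructor <;> nlinarith
  · rw [abs_of_nonneg hδ] at h0 h1 ⊢
    refine ⟨⌊α / δ⌋₊, Nat.floor_le_floor (by
      apply div_le_div_of_nonneg_right _ h0.le
      linarith), 0, ?_⟩
    have c1 := Nat.floor_le (show 0 ≤ α / δ from div_nonneg (by linarith) h0.le)
    have c2 := Nat.lt_floor_add_one (α / δ)
    rw [le_div_iff₀ h0] at c1
    rw [div_lt_iff₀ h0] at c2
    push_cast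
    rw [abs_lt]
    constructor <;> nlinarith

/-- the imaginary part of `clog` of a rotated point -/
theorem clog_im (θ : ℝ) (j : ℕ) (w : ℂ) (hw : w ≠ 0) :
    (clog (ez θ ^ j * w)).im = toIcoMod Real.two_pi_pos 0 ((j : ℝ) * θ + w.arg) := by
  have e1 : ez θ ^ j * w = (‖w‖ : ℂ) * Complex.exp (((j : ℝ) * θ + w.arg : ℝ) * Complex.I) := by
    rw [ez_pow]
    conv_lhs => rw [← Complex.norm_mul_exp_arg_mul_I w]
    push_cast
    rw [add_mul, Complex.exp_add]
    ring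
  have e2 : (ez θ ^ j * w).arg = toIocMod Real.two_pi_pos (-Real.pi) ((j : ℝ) * θ + w.arg) := by
    rw [e1, Complex.arg_real_mul _ (norm_pos_iff.mpr hw), Complex.arg_exp_mul_I]
  show toIcoMod Real.two_pi_pos 0 (ez θ ^ j * w).arg = _
  rw [e2]
  unfold toIocMod
  rw [toIcoMod_sub_zsmul]

/-- `toIcoMod` of a number which is congruent to a number of `[0, T)` -/
theorem mod_eq {T : ℝ} (hT : 0 < T) {x y : ℝ} (s : ℤ) (h : x = y + s * T) (h0 : 0 ≤ y) (h1 : y < T) :
    toIcoMod hT 0 x = y := by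
  rw [h, ← zsmul_eq_mul, toIcoMod_add_zsmul]
  rw [toIcoMod_eq_self]
  exact ⟨h0, by rw [zero_add]; exact h1⟩

end B13

open B13

theorem p_B13 : S_B13 := by
  intro θ hθ
  obtain ⟨j0, m, d0, d1⟩ := small_step θ hθ
  have hpi := Real.pi_gt_three
  set T : ℝ := 2 * Real.pi with hT
  have hT0 : 0 < T := by positivity
  set δ : ℝ := (j0 : ℝ) * θ - m * T with hδ
  refine ⟨⌊T / |δ|⌋₊ * j0, ?_⟩
  intro w hw φ hφ0 hφ1
  -- clipped target
  obtain ⟨φ', h1, h2, h3⟩ : ∃ φ' : ℝ, 1 / 50 ≤ φ' ∧ φ' ≤ T - 1 / 50 ∧ |φ' - φ| ≤ 1 / 50 := by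
    refine ⟨max (1 / 50) (min φ (T - 1 / 50)), le_max_left _ _, ?_, ?_⟩
    · apply max_le
      · linarith
      · exact min_le_right _ _
    · rw [abs_le]
      rcases le_total φ (T - 1 / 50) with a | a
      · rw [min_eq_left a]
        rcases le_total (1 / 50) φ with b | b
        · rw [max_eq_right b]; constructor <;> linarith
        · rw [max_eq_left b]; constructor <;> linarith
      · rw [min_eq_right a]
        rw [max_eq_right (by linarith)]
        constructor <;> linarith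
  set α : ℝ := toIcoMod hT0 0 (φ' - w.arg) with hα
  have a0 : 0 ≤ α := (toIcoMod_mem_Ico hT0 0 _).1
  have a1 : α ≤ T := by
    have := (toIcoMod_mem_Ico hT0 0 (φ' - w.arg)).2
    rw [zero_add] at this
    exact this.le
  have ae : α = φ' - w.arg - (toIcoDiv hT0 0 (φ' - w.arg) : ℤ) * T := by
    have := self_sub_toIcoDiv_zsmul hT0 0 (φ' - w.arg)
    rw [zsmul_eq_mul] at this
    exact this.symm
  obtain ⟨n, hn, s, hs⟩ := reach T δ α hT0 d0 d1 a0 a1
  refine ⟨n * j0, Nat.mul_le_mul_right _ hn, ?_⟩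
  rw [clog_im θ _ w hw]
  rw [abs_lt] at hs
  rw [abs_le] at h3
  have e : toIcoMod Real.two_pi_pos 0 (((n * j0 : ℕ) : ℝ) * θ + w.arg)
      = φ' + ((n : ℝ) * δ - (α + s * T)) := by
    apply mod_eq hT0 ((n : ℤ) * m + s - toIcoDiv hT0 0 (φ' - w.arg))
    · rw [ae, hδ]
      push_cast
      ring
    · linarith [hs.1]
    · linarith [hs.2]
  rw [e, abs_le]
  constructor <;> linarith [hs.1, hs.2, h3.1, h3.2]

end Pool.Agent.Work.MP_4c4335_dv
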