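import Pool.Agent.Work.MP_4c4335_dv.Def

/-! # Block B14 (helper96): from moduli to `DPV`. -/

open Polynomial Finset Filter

namespace Pool.Agent.Work.MP_4c4335_dv

namespace B14

lemma norm_ez (θ : ℝ) : ‖ez θ‖ = 1 := by
  unfold ez
  exact Complex.norm_exp_ofReal_mul_I θ

lemma val_eq (θ : ℝ) (w : ℤ[X]) (j : ℕ) :
    val θ (j + w.natDegree) (fun i => (X ^ j * w).coeff i) = ez θ ^ j * aeval (ez θ) w := by
  have h1 : aeval (ez θ) (X ^ j * w) = ez θ ^ j * aeval (ez θ) w := by
    rw [map_mul, map_pow, aeval_X]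
  have hd : (X ^ j * w : ℤ[X]).natDegree < j + w.natDegree + 1 := by
    have h2 := natDegree_mul_le (p := (X ^ j : ℤ[X])) (q := w)
    rw [natDegree_X_pow] at h2
    omega
  rw [← h1, aeval_eq_sum_range' hd]
  unfold val
  simp only
  rw [Fin.sum_univ_eq_sum_range (fun i : ℕ => (((X ^ j * w : ℤ[X]).coeff i : ℤ) : ℂ) * ez θ ^ i)
    (j + w.natDegree + 1)]
  refine sum_congr rfl fun i _ => ?_
  rw [zsmul_eq_mul]

lemma wt_le (w : ℤ[X]) (j N : ℕ) (hdeg : w.natDegree < N) (hcoef : ∀ i, |w.coeff i| ≤ (N : ℤ) + 4) :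
    wt (j + w.natDegree) (fun i => (X ^ j * w).coeff i) ≤ ((j + N + N * (N + 4) : ℕ) : ℤ) := by
  unfold wt
  simp only
  rw [Fin.sum_univ_eq_sum_range (fun i : ℕ => 1 + |(X ^ j * w : ℤ[X]).coeff i|) (j + w.natDegree + 1),
    sum_add_distrib, sum_const, card_range, add_assoc j, sum_range_add]
  have h1 : ∑ i ∈ range j, |(X ^ j * w).coeff i| = 0 := by
    apply sum_eq_zero
    intro i hi
    rw [mem_range] at hi
    rw [coeff_X_pow_mul', if_neg (by omega), abs_zero]
  have h2 : ∑ i ∈ range (w.natDegree + 1), |(X ^ j * w).coeff (j + i)| ≤ (N : ℤ) * (N + 4) := by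
    calc ∑ i ∈ range (w.natDegree + 1), |(X ^ j * w).coeff (j + i)|
        ≤ ∑ i ∈ range (w.natDegree + 1), ((N : ℤ) + 4) := by
          refine sum_le_sum fun i _ => ?_
          rw [add_comm j i, coeff_X_pow_mul]
          exact hcoef i
      _ = ((w.natDegree + 1 : ℕ) : ℤ) * ((N : ℤ) + 4) := by
          rw [sum_const, card_range, nsmul_eq_mul]
      _ ≤ (N : ℤ) * (N + 4) := by
          refine mul_le_mul_of_nonneg_right ?_ (by positivity)
          exact_mod_cast hdeg
  rw [h1]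
  simp only [nsmul_eq_mul, mul_one, zero_add]
  push_cast
  push_cast at h2
  have h3 : (w.natDegree : ℤ) + 1 ≤ N := by exact_mod_cast hdeg
  linarith

end B14

open B14 in
theorem p_B14 (h13 : S_B13) : S_B14 := by
  intro θ hθ
  obtain ⟨J0, hJ⟩ := h13 θ hθ
  refine ⟨J0, ?_⟩
  intro N ρ hw n hn R hR hρR x hxre hxim
  have hr0 : 0 < Real.exp x.re := Real.exp_pos _
  have hr1 : Real.exp x.re ≤ 1 := by
    rw [← Real.exp_zero]
    exact Real.exp_le_exp.2 hxre.2
  obtain ⟨w, hdeg, hcoef, hlo, hhi⟩ := hw _ hr0 hr1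
  have hz := norm_ez θ
  have hW : aeval (ez θ) w ≠ 0 := by
    intro h
    rw [h, norm_zero] at hlo
    linarith
  obtain ⟨j, hj, harg⟩ := hJ _ hW x.im hxim.1 hxim.2
  refine ⟨clog (ez θ ^ j * aeval (ez θ) w), ⟨j + w.natDegree, fun i => (X ^ j * w).coeff i, ?_, ?_,
    ?_⟩, ?_⟩
  · refine (wt_le w j N hdeg hcoef).trans ?_
    exact_mod_cast (by omega : j + N + N * (N + 4) ≤ n)
  · rw [val_eq]
    refine mul_ne_zero (pow_ne_zero _ ?_) hW
    intro h
    rw [h, norm_zero] at hz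
    exact zero_ne_one hz
  · rw [val_eq]
  · have hWpos : 0 < ‖aeval (ez θ) w‖ := norm_pos_iff.2 hW
    have hre : (clog (ez θ ^ j * aeval (ez θ) w)).re = Real.log ‖aeval (ez θ) w‖ := by
      unfold clog
      rw [norm_mul, norm_pow, hz, one_pow, one_mul]
    have h1 : x.re ≤ Real.log ‖aeval (ez θ) w‖ := by
      rw [Real.le_log_iff_exp_le hWpos]
      exact hlo
    have hρ0 : 0 ≤ ρ := by linarith
    have hrR : 1 ≤ Real.exp x.re * R := by
      have h2 := hxre.1
      have hR0 : 0 < R := by linarith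
      have h3 : Real.exp (-Real.log R) ≤ Real.exp x.re := Real.exp_le_exp.2 h2
      rw [Real.exp_neg, Real.exp_log hR0] at h3
      calc (1 : ℝ) = R⁻¹ * R := (inv_mul_cancel₀ hR0.ne').symm
        _ ≤ Real.exp x.re * R := mul_le_mul_of_nonneg_right h3 hR0.le
    have h2 : Real.log ‖aeval (ez θ) w‖ ≤ x.re + 1 / 20 := by
      rw [Real.log_le_iff_le_exp hWpos, Real.exp_add]
      have h4 : (1 : ℝ) + 1 / 20 ≤ Real.exp (1 / 20) := by
        have := Real.add_one_le_exp (1 / 20 : ℝ)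
        linarith
      have h5 : ρ ≤ Real.exp x.re * (1 / 20) := by
        have h6 : ρ ≤ Real.exp x.re * R * ρ := by
          calc ρ = 1 * ρ := (one_mul ρ).symm
            _ ≤ Real.exp x.re * R * ρ := mul_le_mul_of_nonneg_right hrR hρ0
        have h7 : Real.exp x.re * (20 * ρ * R) ≤ Real.exp x.re * 1 :=
          mul_le_mul_of_nonneg_left hρR hr0.le
        have h9 : Real.exp x.re * (20 * ρ * R) = 20 * (Real.exp x.re * R * ρ) := by ring
        rw [h9, mul_one] at h7
        linarith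
      calc ‖aeval (ez θ) w‖ ≤ Real.exp x.re + ρ := hhi
        _ ≤ Real.exp x.re + Real.exp x.re * (1 / 20) := by linarith
        _ = Real.exp x.re * (1 + 1 / 20) := by ring
        _ ≤ Real.exp x.re * Real.exp (1 / 20) := mul_le_mul_of_nonneg_left h4 hr0.le
    rw [Complex.dist_eq]
    refine (Complex.norm_le_abs_re_add_abs_im _).trans ?_
    rw [Complex.sub_re, Complex.sub_im, hre, abs_sub_comm x.im]
    have h8 : |x.re - Real.log ‖aeval (ez θ) w‖| ≤ 1 / 20 := by
      rw [abs_le]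
      constructor <;> linarith
    linarith

end Pool.Agent.Work.MP_4c4335_dv
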