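import Pool.Agent.Work.MP_4c4335_dv.Def

/-!
# B15: the asymptotics
-/

open Filter Topology

namespace Pool.Agent.Work.MP_4c4335_dv

theorem p_B15 : S_B15 := by
  intro A J0 m hm a ha
  have hm0 : (0 : ℝ) < m := by exact_mod_cast hm
  have h8 : (0 : ℝ) < 1 / (8 * m) := by positivity
  obtain ⟨b, hb1, hb2⟩ := exists_between (max_lt ha h8)
  have hab : a < b := (le_max_left _ _).trans_lt hb1
  have hb0 : 0 < b := (le_max_right _ _).trans_lt hb1
  have hx : Tendsto (fun n : ℕ => (n : ℝ) ^ b) atTop atTop :=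
    (tendsto_rpow_atTop hb0).comp tendsto_natCast_atTop_atTop
  have hl : Tendsto (fun n : ℕ => ⌊(n : ℝ) ^ b⌋₊) atTop atTop := tendsto_nat_floor_atTop.comp hx
  -- the main exponential estimate
  have h3 : Tendsto (fun x : ℝ => (40 * A : ℝ) * (x ^ ((4 * m : ℕ) : ℝ) *
      Real.exp (-(1 / 2 : ℝ) * x))) atTop (𝓝 0) := by
    have := (tendsto_rpow_mul_exp_neg_mul_atTop_nhds_zero ((4 * m : ℕ) : ℝ) (1 / 2)
      (by norm_num)).const_mul (40 * A : ℝ)
    rwa [mul_zero] at this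
  have h3' : ∀ᶠ n : ℕ in atTop, (40 * A : ℝ) * (((n : ℝ) ^ b) ^ ((4 * m : ℕ) : ℝ) *
      Real.exp (-(1 / 2 : ℝ) * (n : ℝ) ^ b)) < 1 :=
    (h3.comp hx).eventually (gt_mem_nhds zero_lt_one)
  -- comparison of the exponents
  have h4 : ∀ᶠ n : ℕ in atTop, (n : ℝ) ^ (-(b - a)) < 1 / 10 :=
    ((tendsto_rpow_neg_atTop (sub_pos.2 hab)).comp tendsto_natCast_atTop_atTop).eventually
      (gt_mem_nhds (by norm_num))
  -- the number of terms
  have h8b : 0 < 1 - 8 * m * b := by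
    have : 8 * (m : ℝ) * b < 8 * m * (1 / (8 * m)) := by
      apply mul_lt_mul_of_pos_left hb2 (by positivity)
    rw [mul_one_div_cancel (by positivity)] at this
    linarith
  have h5 : ∀ᶠ n : ℕ in atTop, ((A + A * A + 4 * A + J0 + 1 : ℕ) : ℝ) ≤
      (n : ℝ) ^ (1 - 8 * m * b) :=
    ((tendsto_rpow_atTop h8b).comp tendsto_natCast_atTop_atTop).eventually_ge_atTop _
  filter_upwards [h3', h4, h5, hl.eventually_ge_atTop 8, eventually_ge_atTop 1] with n h3 h4 h5 h6 h7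
  have hn0 : (0 : ℝ) < n := by exact_mod_cast h7
  set x : ℝ := (n : ℝ) ^ b with hxd
  have hx0 : 0 < x := Real.rpow_pos_of_pos hn0 b
  set l : ℕ := ⌊x⌋₊ with hld
  have hlx : (l : ℝ) ≤ x := Nat.floor_le hx0.le
  have hxl : x < l + 1 := Nat.lt_floor_add_one x
  have hl1 : 1 ≤ l := by omega
  have hkey : 20 * (((A * l ^ (4 * m) : ℕ) : ℝ) * (1 / 2) ^ l) * Real.exp ((n : ℝ) ^ a) ≤ 1 := by
    have e1 : (((A * l ^ (4 * m) : ℕ) : ℝ)) ≤ A * x ^ ((4 * m : ℕ) : ℝ) := by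
      rw [Real.rpow_natCast]
      push_cast
      gcongr
    have e2 : ((1 / 2 : ℝ)) ^ l ≤ 2 * Real.exp (-(6 / 10 : ℝ) * x) := by
      have f1 : ((1 / 2 : ℝ)) ^ l = Real.exp (-(Real.log 2) * l) := by
        rw [mul_comm, Real.exp_nat_mul, Real.exp_neg, Real.exp_log (by norm_num)]
        norm_num
      have f2 : -(Real.log 2) * l ≤ Real.log 2 + -(6 / 10 : ℝ) * x := by
        have g1 := Real.log_two_gt_d9
        nlinarith
      calc ((1 / 2 : ℝ)) ^ l = Real.exp (-(Real.log 2) * l) := f1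
        _ ≤ Real.exp (Real.log 2 + -(6 / 10 : ℝ) * x) := Real.exp_le_exp.2 f2
        _ = 2 * Real.exp (-(6 / 10 : ℝ) * x) := by
          rw [Real.exp_add, Real.exp_log (by norm_num)]
    have e3 : Real.exp ((n : ℝ) ^ a) ≤ Real.exp ((1 / 10 : ℝ) * x) := by
      apply Real.exp_le_exp.2
      have : (n : ℝ) ^ a = (n : ℝ) ^ (-(b - a)) * x := by
        rw [hxd, ← Real.rpow_add hn0]
        congr 1
        ring
      rw [this]
      gcongr
    calc 20 * (((A * l ^ (4 * m) : ℕ) : ℝ) * (1 / 2) ^ l) * Real.exp ((n : ℝ) ^ a)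
        ≤ 20 * ((A * x ^ ((4 * m : ℕ) : ℝ)) * (2 * Real.exp (-(6 / 10 : ℝ) * x))) *
          Real.exp ((1 / 10 : ℝ) * x) := by gcongr
      _ = (40 * A : ℝ) * (x ^ ((4 * m : ℕ) : ℝ) * (Real.exp (-(6 / 10 : ℝ) * x) *
          Real.exp ((1 / 10 : ℝ) * x))) := by ring
      _ = (40 * A : ℝ) * (x ^ ((4 * m : ℕ) : ℝ) * Real.exp (-(1 / 2 : ℝ) * x)) := by
          rw [← Real.exp_add]
          congr 4
          ring
      _ ≤ 1 := h3.le
  refine ⟨l, h6, ?_, ?_, hkey⟩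
  · have e1 : (1 : ℝ) ≤ Real.exp ((n : ℝ) ^ a) := Real.one_le_exp (Real.rpow_nonneg hn0.le a)
    have e2 : (0 : ℝ) ≤ ((A * l ^ (4 * m) : ℕ) : ℝ) * (1 / 2) ^ l := by positivity
    nlinarith
  · have e1 : A * l ^ (4 * m) + J0 + A * l ^ (4 * m) * (A * l ^ (4 * m) + 4) + 1 ≤
        (A + A * A + 4 * A + J0 + 1) * l ^ (8 * m) := by
      have f1 : l ^ (8 * m) = l ^ (4 * m) * l ^ (4 * m) := by
        rw [← pow_add]
        congr 1
        ring
      have f2 : 1 ≤ l ^ (4 * m) := Nat.one_le_pow _ _ hl1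
      rw [f1]
      generalize l ^ (4 * m) = t at *
      have f3 : t ≤ t * t := Nat.le_mul_of_pos_left _ f2
      have f4 : 1 ≤ t * t := f2.trans f3
      calc A * t + J0 + A * t * (A * t + 4) + 1
          = A * t + J0 * 1 + A * A * (t * t) + 4 * A * t + 1 * 1 := by ring
        _ ≤ A * (t * t) + J0 * (t * t) + A * A * (t * t) + 4 * A * (t * t) + 1 * (t * t) := by
          gcongr
        _ = (A + A * A + 4 * A + J0 + 1) * (t * t) := by ring
    refine e1.trans ?_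
    have e2 : (((A + A * A + 4 * A + J0 + 1) * l ^ (8 * m) : ℕ) : ℝ) ≤ (n : ℝ) := by
      rw [Nat.cast_mul]
      calc ((A + A * A + 4 * A + J0 + 1 : ℕ) : ℝ) * ((l ^ (8 * m) : ℕ) : ℝ)
          ≤ (n : ℝ) ^ (1 - 8 * m * b) * x ^ (8 * m) := by
            push_cast at h5 ⊢
            gcongr
        _ = (n : ℝ) := by
            rw [← Real.rpow_natCast x, hxd, ← Real.rpow_mul hn0.le, ← Real.rpow_add hn0]
            have : 1 - 8 * m * b + b * ((8 * m : ℕ) : ℝ) = 1 := by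
              push_cast
              ring
            rw [this, Real.rpow_one]
    exact_mod_cast e2

end Pool.Agent.Work.MP_4c4335_dv
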