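import Pool.Agent.Work.MP_4c4335_dv.Def

/-!
# Block B16: almost every angle (typed by helper81)
-/

open Polynomial Finset Filter MeasureTheory

namespace Pool.Agent.Work.MP_4c4335_dv

namespace B16h

theorem point (θ : ℝ) (h1 : ∀ p > (2 : ℝ), ¬ LiouvilleWith p ((2 * Real.pi)⁻¹ * θ))
    (h2 : Irrational ((2 * Real.pi)⁻¹ * θ)) : DC 3 θ := by
  have h3 : ∀ᶠ q : ℕ in atTop, ¬ ∃ m : ℤ, (2 * Real.pi)⁻¹ * θ ≠ m / q ∧
      |(2 * Real.pi)⁻¹ * θ - m / q| < 1 / (q : ℝ) ^ (3 : ℝ) := by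
    by_contra hcon
    exact h1 3 (by norm_num) ⟨1, hcon⟩
  unfold DC
  filter_upwards [h3, eventually_gt_atTop 0] with q hq hq0 p
  have hqR : (0 : ℝ) < q := by exact_mod_cast hq0
  have hpi : (1 : ℝ) ≤ 2 * Real.pi := by linarith [Real.pi_gt_three]
  have hpi0 : (0 : ℝ) < 2 * Real.pi := by linarith
  have hne : (2 * Real.pi)⁻¹ * θ ≠ (p : ℝ) / q := by
    have h4 := h2.ne_rat ((p : ℚ) / (q : ℚ))
    push_cast at h4
    exact h4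
  have h5 : 1 / (q : ℝ) ^ (3 : ℝ) ≤ |(2 * Real.pi)⁻¹ * θ - (p : ℝ) / q| := by
    by_contra hlt
    exact hq ⟨p, hne, not_le.1 hlt⟩
  have h6 : θ - 2 * Real.pi * p / q = 2 * Real.pi * ((2 * Real.pi)⁻¹ * θ - (p : ℝ) / q) := by
    field_simp
  rw [h6, abs_mul, abs_of_pos hpi0, Real.rpow_neg hqR.le, ← one_div]
  calc 1 / (q : ℝ) ^ (3 : ℝ) ≤ |(2 * Real.pi)⁻¹ * θ - (p : ℝ) / q| := h5
    _ = 1 * |(2 * Real.pi)⁻¹ * θ - (p : ℝ) / q| := (one_mul _).symm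
    _ ≤ 2 * Real.pi * |(2 * Real.pi)⁻¹ * θ - (p : ℝ) / q| :=
        mul_le_mul_of_nonneg_right hpi (abs_nonneg _)

end B16h

open B16h in
/-- B16. -/
theorem p_B16 : S_B16 := by
  have hpi0 : (2 * Real.pi)⁻¹ ≠ 0 := inv_ne_zero (by positivity)
  have h1 : ∀ᵐ x : ℝ, (∀ p > (2 : ℝ), ¬ LiouvilleWith p x) ∧ Irrational x := by
    refine ae_not_liouvilleWith.and ?_
    exact (Set.countable_range (fun q : ℚ => (q : ℝ))).ae_notMem volume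
  have h2 : ∀ᵐ θ : ℝ, (∀ p > (2 : ℝ), ¬ LiouvilleWith p ((2 * Real.pi)⁻¹ * θ)) ∧
      Irrational ((2 * Real.pi)⁻¹ * θ) := by
    rw [ae_iff] at h1 ⊢
    have h3 := Real.volume_preimage_mul_left hpi0
      {x : ℝ | ¬ ((∀ p > (2 : ℝ), ¬ LiouvilleWith p x) ∧ Irrational x)}
    rw [h1, mul_zero] at h3
    exact h3
  exact h2.mono (fun θ h => point θ h.1 h.2)

end Pool.Agent.Work.MP_4c4335_dv
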