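import Pool.Agent.Work.MP_4c4335_dv.Def

/-!
# Block B2: an algebraic integer which is not a root of unity has a large conjugate
-/

open Polynomial Finset Filter NumberField

namespace Pool.Agent.Work.MP_4c4335_dv

namespace B2x

theorem pow_lt_two {x : ℝ} (hx : 0 ≤ x) {n m : ℕ} (hm : m ≤ n) (h : x ^ n < 2) : x ^ m ≤ 2 := by
  rcases le_or_gt x 1 with h1 | h1
  · exact (pow_le_one₀ hx h1).trans (by norm_num)
  · exact (pow_le_pow_right₀ h1.le hm).trans h.le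

/-- the power sums over the embeddings are traces -/
theorem sum_pow {K : Type} [Field K] [NumberField K] (b : 𝓞 K) :
    ((Algebra.trace ℤ (𝓞 K) b : ℤ) : ℂ) = ∑ σ : K →ₐ[ℚ] ℂ, σ (b : K) := by
  rw [← trace_eq_sum_embeddings ℂ, ← Algebra.coe_trace_int]
  simp

theorem trace_eq {K : Type} [Field K] [NumberField K] (h2a : S_B2a) (b : 𝓞 K) (k p j : ℕ)
    (hp : p.Prime) (hpk : 4 * k < p) (hcard : Fintype.card (K →ₐ[ℚ] ℂ) ≤ k)
    (hj : j * p ≤ 16 * k ^ 2) (hb : ∀ σ : K →ₐ[ℚ] ℂ, ‖σ (b : K)‖ ^ (16 * k ^ 2) < 2) :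
    ∑ σ : K →ₐ[ℚ] ℂ, (σ (b : K) ^ p) ^ j = ∑ σ : K →ₐ[ℚ] ℂ, (σ (b : K)) ^ j := by
  have hbd : ∀ m : ℕ, m ≤ 16 * k ^ 2 →
      |((Algebra.trace ℤ (𝓞 K) (b ^ m) : ℤ) : ℝ)| ≤ 2 * k := by
    intro m hm
    have h1 : |((Algebra.trace ℤ (𝓞 K) (b ^ m) : ℤ) : ℝ)| =
        ‖((Algebra.trace ℤ (𝓞 K) (b ^ m) : ℤ) : ℂ)‖ := by
      rw [Complex.norm_intCast]
    rw [h1, sum_pow]
    calc ‖∑ σ : K →ₐ[ℚ] ℂ, σ ((b ^ m : 𝓞 K) : K)‖
        ≤ ∑ σ : K →ₐ[ℚ] ℂ, ‖σ ((b ^ m : 𝓞 K) : K)‖ := norm_sum_le _ _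
      _ ≤ ∑ σ : K →ₐ[ℚ] ℂ, 2 := by
          refine sum_le_sum fun σ _ => ?_
          have e : σ ((b ^ m : 𝓞 K) : K) = σ (b : K) ^ m := by
            push_cast
            rw [map_pow]
          rw [e, norm_pow]
          exact pow_lt_two (norm_nonneg _) hm (hb σ)
      _ = Fintype.card (K →ₐ[ℚ] ℂ) * 2 := by
          rw [sum_const, card_univ, nsmul_eq_mul]
      _ ≤ 2 * k := by
          have : (Fintype.card (K →ₐ[ℚ] ℂ) : ℝ) ≤ k := by exact_mod_cast hcard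
          linarith
  have hdvd := h2a p hp K (b ^ j)
  have hzero : Algebra.trace ℤ (𝓞 K) ((b ^ j) ^ p) - Algebra.trace ℤ (𝓞 K) (b ^ j) = 0 := by
    refine Int.eq_zero_of_abs_lt_dvd hdvd ?_
    have h2 : j ≤ 16 * k ^ 2 := le_trans (Nat.le_mul_of_pos_right j hp.pos) hj
    have h3 := hbd (j * p) hj
    have h4 := hbd j h2
    rw [pow_mul] at h3
    have h5 : |((Algebra.trace ℤ (𝓞 K) ((b ^ j) ^ p) - Algebra.trace ℤ (𝓞 K) (b ^ j) : ℤ) : ℝ)| ≤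
        4 * k := by
      push_cast
      calc |((Algebra.trace ℤ (𝓞 K) ((b ^ j) ^ p) : ℤ) : ℝ) -
            ((Algebra.trace ℤ (𝓞 K) (b ^ j) : ℤ) : ℝ)|
          ≤ |((Algebra.trace ℤ (𝓞 K) ((b ^ j) ^ p) : ℤ) : ℝ)| +
            |((Algebra.trace ℤ (𝓞 K) (b ^ j) : ℤ) : ℝ)| := abs_sub _ _
        _ ≤ 2 * k + 2 * k := add_le_add h3 h4
        _ = 4 * k := by ring
    have h6 : |Algebra.trace ℤ (𝓞 K) ((b ^ j) ^ p) - Algebra.trace ℤ (𝓞 K) (b ^ j)| ≤ 4 * k := by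
      exact_mod_cast h5
    have h7 : (4 * k : ℤ) < p := by exact_mod_cast hpk
    linarith
  have h8 : (Algebra.trace ℤ (𝓞 K) ((b ^ j) ^ p) : ℤ) = Algebra.trace ℤ (𝓞 K) (b ^ j) := by
    linarith
  have h9 := congrArg (fun x : ℤ => (x : ℂ)) h8
  simp only [sum_pow] at h9
  calc ∑ σ : K →ₐ[ℚ] ℂ, (σ (b : K) ^ p) ^ j = ∑ σ : K →ₐ[ℚ] ℂ, σ (((b ^ j) ^ p : 𝓞 K) : K) := by
        refine sum_congr rfl fun σ _ => ?_
        push_cast
        rw [map_pow, map_pow, ← pow_mul, ← pow_mul, mul_comm]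
    _ = ∑ σ : K →ₐ[ℚ] ℂ, σ ((b ^ j : 𝓞 K) : K) := h9
    _ = _ := by
        refine sum_congr rfl fun σ _ => ?_
        push_cast
        rw [map_pow]

end B2x

theorem p_B2 (h2a : S_B2a) (h2b : S_B2b) : S_B2 := by
  intro k hk β hβ0 hint hdeg hroot
  by_contra hcon
  push Not at hcon
  have hintQ : IsIntegral ℚ β := hint.tower_top
  obtain ⟨K, hK⟩ : ∃ K : IntermediateField ℚ ℂ, K = IntermediateField.adjoin ℚ {β} := ⟨_, rfl⟩
  have hfd : FiniteDimensional ℚ K := by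
    rw [hK]; exact IntermediateField.adjoin.finiteDimensional hintQ
  have hnf : NumberField K := { to_charZero := inferInstance, to_finiteDimensional := hfd }
  have hβK : β ∈ K := by rw [hK]; exact IntermediateField.mem_adjoin_simple_self ℚ β
  obtain ⟨g, hg⟩ : ∃ g : K, (g : ℂ) = β := ⟨⟨β, hβK⟩, rfl⟩
  have hgint : IsIntegral ℤ g := by
    have h1 : IsIntegral ℤ (algebraMap K ℂ g) := by
      have : algebraMap K ℂ g = β := hg
      rw [this]; exact hint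
    exact (isIntegral_algebraMap_iff (algebraMap K ℂ).injective).1 h1
  obtain ⟨b, hb⟩ : ∃ b : 𝓞 K, (b : K) = g := ⟨⟨g, hgint⟩, rfl⟩
  have hcard : Fintype.card (K →ₐ[ℚ] ℂ) ≤ k := by
    rw [AlgHom.card ℚ K ℂ]
    have h1 : Module.finrank ℚ K = (minpoly ℚ β).natDegree := by
      rw [hK]; exact IntermediateField.adjoin.finrank hintQ
    rw [h1]; exact hdeg
  have hmin : ∀ σ : K →ₐ[ℚ] ℂ, aeval (σ g) (minpoly ℚ β) = 0 := by
    intro σ
    rw [aeval_algHom_apply]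
    have h1 : aeval g (minpoly ℚ β) = 0 := by
      apply Subtype.ext
      have h2 : ((aeval g (minpoly ℚ β) : K) : ℂ) = aeval ((g : K) : ℂ) (minpoly ℚ β) :=
        (aeval_algHom_apply K.val g (minpoly ℚ β)).symm
      rw [h2, hg, minpoly.aeval]
      rfl
    rw [h1, map_zero]
  have hsmall : ∀ σ : K →ₐ[ℚ] ℂ, ‖σ (b : K)‖ ^ (16 * k ^ 2) < 2 := fun σ => by
    rw [hb]; exact hcon _ (hmin σ)
  obtain ⟨p, hp, hp1, hp2⟩ := Nat.exists_prime_lt_and_le_two_mul (4 * k) (by omega)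
  have hst : (univ : Finset (K →ₐ[ℚ] ℂ)).val.map (fun σ => σ (b : K) ^ p) =
      (univ : Finset (K →ₐ[ℚ] ℂ)).val.map (fun σ => σ (b : K)) := by
    refine h2b k _ _ ?_ ?_ fun j hj => ?_
    · rw [Multiset.card_map, Multiset.card_map]
    · rw [Multiset.card_map]
      exact hcard
    · rw [Multiset.map_map, Multiset.map_map]
      have hjp : j * p ≤ 16 * k ^ 2 := by
        calc j * p ≤ (2 * k) * (2 * (4 * k)) := Nat.mul_le_mul hj.le hp2
          _ = 16 * k ^ 2 := by ring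
      exact B2x.trace_eq h2a b k p j hp hp1 hcard hjp hsmall
  have hstep : ∀ σ : K →ₐ[ℚ] ℂ, ∃ τ : K →ₐ[ℚ] ℂ, τ (b : K) = σ (b : K) ^ p := by
    intro σ
    have h1 : σ (b : K) ^ p ∈ (univ : Finset (K →ₐ[ℚ] ℂ)).val.map (fun σ => σ (b : K) ^ p) :=
      Multiset.mem_map.2 ⟨σ, mem_univ σ, rfl⟩
    rw [hst] at h1
    obtain ⟨τ, _, h2⟩ := Multiset.mem_map.1 h1
    exact ⟨τ, h2⟩
  have hseq : ∀ i : ℕ, ∃ τ : K →ₐ[ℚ] ℂ, τ (b : K) = β ^ p ^ i := by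
    intro i
    induction i with
    | zero => exact ⟨K.val, by rw [hb, pow_zero, pow_one]; exact hg⟩
    | succ i ih =>
      obtain ⟨τ, hτ⟩ := ih
      obtain ⟨τ', hτ'⟩ := hstep τ
      exact ⟨τ', by rw [hτ', hτ, ← pow_mul, ← pow_succ]⟩
  choose f hf using hseq
  obtain ⟨i, h, hne, hih⟩ := Finite.exists_ne_map_eq_of_infinite f
  have key : ∀ i h : ℕ, i < h → f i = f h → False := by
    intro i h hlt he
    have h1 : β ^ p ^ i = β ^ p ^ h := by rw [← hf i, ← hf h, he]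
    have h2 : p ^ i < p ^ h := Nat.pow_lt_pow_right hp.one_lt hlt
    have h3 : β ^ p ^ h = β ^ p ^ i * β ^ (p ^ h - p ^ i) := by
      rw [← pow_add]; congr 1; omega
    refine hroot (p ^ h - p ^ i) (by omega) ?_
    have h4 : β ^ p ^ i ≠ 0 := pow_ne_zero _ hβ0
    rw [h3] at h1
    exact (mul_left_cancel₀ h4 (by rw [mul_one]; exact h1)).symm
  rcases Nat.lt_or_gt_of_ne hne with hlt | hlt
  · exact key i h hlt hih
  · exact key h i hlt hih.symm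

end Pool.Agent.Work.MP_4c4335_dv
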