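import Pool.Agent.Work.MP_4c4335_dv.Def

/-!
# Block B2b (typed by helper83): equality of power sums of two multisets of complex numbers
-/

open Polynomial Finset Filter

namespace Pool.Agent.Work.MP_4c4335_dv

namespace B2b83

/-- sums of the values of a polynomial -/
theorem sum_eval (s : Multiset ℂ) (P : ℂ[X]) : (s.map (fun x => P.eval x)).sum =
    ∑ j ∈ range (P.natDegree + 1), P.coeff j * (s.map (fun x => x ^ j)).sum := by
  induction s using Multiset.induction_on with
  | empty => simp
  | cons a s ih =>
    simp only [Multiset.map_cons, Multiset.sum_cons, mul_add, Finset.sum_add_distrib]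
    rw [ih, Polynomial.eval_eq_sum_range]

/-- a polynomial which vanishes on the multiset away from `a` -/
theorem sum_one (s : Multiset ℂ) (P : ℂ[X]) (a : ℂ) (h : ∀ x ∈ s, x ≠ a → P.eval x = 0) :
    (s.map (fun x => P.eval x)).sum = (s.count a : ℂ) * P.eval a := by
  classical
  induction s using Multiset.induction_on with
  | empty => simp
  | cons b s ih =>
    rw [Multiset.map_cons, Multiset.sum_cons, ih fun x hx => h x (Multiset.mem_cons_of_mem hx)]
    by_cases hb : b = a
    · rw [hb, Multiset.count_cons_self]
      push_cast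
      ring
    · rw [h b (Multiset.mem_cons_self b s) hb, Multiset.count_cons_of_ne (Ne.symm hb), zero_add]

end B2b83

theorem p_B2b : S_B2b := by
  classical
  intro k s t hst hk hp
  ext a
  by_cases ha : a ∈ s + t
  · obtain ⟨U, hU⟩ : ∃ U : Finset ℂ, U = (s + t).toFinset := ⟨_, rfl⟩
    have haU : a ∈ U := by
      rw [hU]
      exact Multiset.mem_toFinset.2 ha
    have hcard : U.card ≤ 2 * k := by
      rw [hU]
      refine (Multiset.toFinset_card_le _).trans ?_
      rw [Multiset.card_add]
      omega
    obtain ⟨P, hP⟩ : ∃ P : ℂ[X], P = ∏ u ∈ U.erase a, (X - C u) := ⟨_, rfl⟩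
    have hdeg : P.natDegree < 2 * k := by
      rw [hP, natDegree_finsetProd_X_sub_C_eq_card, card_erase_of_mem haU]
      have : 0 < U.card := card_pos.2 ⟨a, haU⟩
      omega
    have hz : ∀ x ∈ U, x ≠ a → P.eval x = 0 := by
      intro x hx hxa
      rw [hP, eval_prod]
      exact prod_eq_zero (mem_erase.2 ⟨hxa, hx⟩) (by simp)
    have hPa : P.eval a ≠ 0 := by
      rw [hP, eval_prod]
      refine prod_ne_zero_iff.2 fun u hu => ?_
      rw [eval_sub, eval_X, eval_C]
      exact sub_ne_zero.2 (ne_of_mem_erase hu).symm
    have h1 := B2b83.sum_one s P a fun x hx hxa => hz x (by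
      rw [hU]
      exact Multiset.mem_toFinset.2 (Multiset.mem_add.2 (Or.inl hx))) hxa
    have h2 := B2b83.sum_one t P a fun x hx hxa => hz x (by
      rw [hU]
      exact Multiset.mem_toFinset.2 (Multiset.mem_add.2 (Or.inr hx))) hxa
    have h3 : (s.map (fun x => P.eval x)).sum = (t.map (fun x => P.eval x)).sum := by
      rw [B2b83.sum_eval, B2b83.sum_eval]
      apply sum_congr rfl
      intro j hj
      rw [hp j (by have := mem_range.1 hj; omega)]
    rw [h1, h2] at h3
    exact_mod_cast mul_right_cancel₀ hPa h3
  · rw [Multiset.mem_add, not_or] at ha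
    rw [Multiset.count_eq_zero_of_notMem ha.1, Multiset.count_eq_zero_of_notMem ha.2]

end Pool.Agent.Work.MP_4c4335_dv
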