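import Pool.Agent.Work.MP_4c4335_dv.Def

/-!
# Block B5: the roots of the greatest common divisor
-/

set_option autoImplicit false

open Polynomial Finset Filter

namespace Pool.Agent.Work.MP_4c4335_dv

namespace B5aux

/-- the polynomial with digits `e` at the multiples of `w` -/
noncomputable def dg (k w : ℕ) (e : Fin k → ℤ) : ℤ[X] := ∑ i, C (e i) * X ^ ((i : ℕ) * w)

theorem coeff_dg {k w : ℕ} (hw : 0 < w) (e : Fin k → ℤ) (i : Fin k) :
    (dg k w e).coeff ((i : ℕ) * w) = e i := by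
  unfold dg
  rw [finsetSum_coeff, Finset.sum_eq_single i]
  · rw [coeff_C_mul, coeff_X_pow, if_pos rfl, mul_one]
  · intro j _ hj
    rw [coeff_C_mul, coeff_X_pow, if_neg, mul_zero]
    intro h
    exact hj (Fin.ext (Nat.eq_of_mul_eq_mul_right hw h.symm))
  · intro h
    exact absurd (Finset.mem_univ i) h

theorem abs_coeff {k w : ℕ} (hw : 0 < w) (e : Fin k → ℤ) (he : ∀ i, |e i| ≤ 1) (j : ℕ) :
    |(dg k w e).coeff j| ≤ 1 := by
  by_cases h : ∃ i : Fin k, (i : ℕ) * w = j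
  · obtain ⟨i, rfl⟩ := h
    rw [coeff_dg hw]
    exact he i
  · have h0 : (dg k w e).coeff j = 0 := by
      unfold dg
      rw [finsetSum_coeff]
      refine Finset.sum_eq_zero fun i _ => ?_
      rw [coeff_C_mul, coeff_X_pow, if_neg, mul_zero]
      intro h1
      exact h ⟨i, h1.symm⟩
    rw [h0]
    norm_num

theorem dg_ne {k w : ℕ} (hw : 0 < w) (e : Fin k → ℤ) (he : e ≠ 0) : dg k w e ≠ 0 := by
  intro h
  apply he
  funext i
  have := coeff_dg hw e i
  rw [h, coeff_zero] at this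
  exact this.symm

theorem natDegree_dg (k w : ℕ) (e : Fin k → ℤ) : (dg k w e).natDegree ≤ (k - 1) * w := by
  unfold dg
  refine natDegree_sum_le_of_forall_le _ _ fun i _ => ?_
  refine (natDegree_C_mul_X_pow_le _ _).trans ?_
  exact Nat.mul_le_mul_right w (by have := i.2; omega)

theorem aeval_dg (k w : ℕ) (e : Fin k → ℤ) (x : ℂ) :
    aeval x (dg k w e) = ∑ i, (e i : ℂ) * (x ^ w) ^ (i : ℕ) := by
  unfold dg
  rw [map_sum]
  refine Finset.sum_congr rfl fun i _ => ?_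
  rw [map_mul, map_pow, aeval_X, aeval_C, ← pow_mul, mul_comm w]
  simp

theorem integral_of {Q : ℤ[X]} (hQ : Q ≠ 0) (h : ∀ i, |Q.coeff i| ≤ 1) {β : ℂ}
    (hβ : aeval β Q = 0) : IsIntegral ℤ β := by
  have h1 : Q.leadingCoeff ≠ 0 := leadingCoeff_ne_zero.2 hQ
  have h2 : |Q.leadingCoeff| ≤ 1 := h _
  have h3 : Q.leadingCoeff = 1 ∨ Q.leadingCoeff = -1 := by
    rcases abs_le.1 h2 with ⟨h4, h5⟩
    omega
  rcases h3 with h3 | h3
  · exact ⟨Q, h3, by rw [← aeval_def]; exact hβ⟩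
  · refine ⟨-Q, ?_, ?_⟩
    · unfold Monic
      rw [leadingCoeff_neg, h3, neg_neg]
    · rw [← aeval_def, map_neg, hβ, neg_zero]

end B5aux

open B5aux in
/-- Block B5. -/
theorem p_B5 (h1 : S_B1) (h2 : S_B2) (h3 : S_B3) (h4 : S_B4) : S_B5 := by
  intro z hz l hl g hg
  have hdvd : ∀ (w : ℕ) (e : Fin (4 * l) → ℤ), 0 < w → (4 * l - 1) * w < MM l →
      (∀ i, |e i| ≤ 1) → ‖∑ i, (e i : ℂ) * (z ^ w) ^ (i : ℕ)‖ ≤ (1 / 2) ^ l →
      g ∣ (dg (4 * l) w e).map (Int.castRingHom ℚ) := by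
    intro w e hw hwl he hsum
    have hmem : (dg (4 * l) w e).map (Int.castRingHom ℚ) ∈ Ideal.span (SQ z l) := by
      refine Ideal.subset_span ⟨dg (4 * l) w e, ⟨?_, ?_, ?_⟩, rfl⟩
      · exact (natDegree_dg _ _ _).trans_lt hwl
      · exact abs_coeff hw e he
      · rw [aeval_dg]
        exact hsum
    rw [hg] at hmem
    exact Ideal.mem_span_singleton.1 hmem
  have hroot : ∀ (Q : ℤ[X]) (x : ℂ), g ∣ Q.map (Int.castRingHom ℚ) → aeval x g = 0 →
      aeval x Q = 0 := by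
    intro Q x hQ hx
    have h5 : aeval x (Q.map (algebraMap ℤ ℚ)) = 0 := by
      obtain ⟨R, hR⟩ := hQ
      rw [algebraMap_int_eq, hR, map_mul, hx, zero_mul]
    rwa [aeval_map_algebraMap] at h5
  obtain ⟨d, hd0, hd1, hd2⟩ := h1 z hz l hl
  have hMM : MM l = 1024 * l ^ 3 := rfl
  have hM1 : (4 * l - 1) * 1 < MM l := by
    rw [hMM]
    have h5 : l ≤ l ^ 3 := Nat.le_self_pow (by norm_num) l
    omega
  have hg1 : g ∣ (dg (4 * l) 1 d).map (Int.castRingHom ℚ) :=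
    hdvd 1 d one_pos hM1 hd1 (by simpa using hd2)
  have hP0 : dg (4 * l) 1 d ≠ 0 := dg_ne one_pos d hd0
  have hP0' : (dg (4 * l) 1 d).map (Int.castRingHom ℚ) ≠ 0 := by
    intro h
    exact hP0 ((Polynomial.map_eq_zero_iff (RingHom.injective_int _)).1 h)
  have hg0 : g ≠ 0 := by
    rintro rfl
    exact hP0' (zero_dvd_iff.1 hg1)
  have hdeg : g.natDegree < 4 * l := by
    have h5 := natDegree_le_of_dvd hg1 hP0'
    have h6 := natDegree_map_le (f := Int.castRingHom ℚ) (p := dg (4 * l) 1 d)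
    have h7 := natDegree_dg (4 * l) 1 d
    omega
  refine ⟨hg0, hdeg, fun β hβ => ?_⟩
  by_cases hβ0 : β = 0
  · exact Or.inl hβ0
  right
  have hint : IsIntegral ℤ β := integral_of hP0 (abs_coeff one_pos d hd1) (hroot _ _ hg1 hβ)
  have hmin : minpoly ℚ β ∣ g := minpoly.dvd ℚ β hβ
  have hmdeg : (minpoly ℚ β).natDegree ≤ g.natDegree := natDegree_le_of_dvd hmin hg0
  by_cases hru : ∀ n, 0 < n → β ^ n ≠ 1
  · exfalso
    obtain ⟨β', hb1, hb2⟩ := h2 (4 * l) (by omega) β hβ0 hint (by omega) hru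
    have hb3 : aeval β' g = 0 := by
      obtain ⟨R, hR⟩ := hmin
      rw [hR, map_mul, hb1, zero_mul]
    have hw0 : 0 < 16 * (4 * l) ^ 2 := by positivity
    obtain ⟨e, he0, he1, he2⟩ := h1 (z ^ (16 * (4 * l) ^ 2)) (by rw [norm_pow, hz, one_pow]) l hl
    have hM2 : (4 * l - 1) * (16 * (4 * l) ^ 2) < MM l := by
      rw [hMM]
      have h5 : (4 * l - 1) * (16 * (4 * l) ^ 2) < 4 * l * (16 * (4 * l) ^ 2) :=
        Nat.mul_lt_mul_of_pos_right (by omega) hw0
      have h6 : 4 * l * (16 * (4 * l) ^ 2) = 1024 * l ^ 3 := by ring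
      omega
    have hgD := hdvd _ e hw0 hM2 he1 he2
    have h5 := hroot _ _ hgD hb3
    rw [aeval_dg] at h5
    exact h3 (4 * l) (β' ^ (16 * (4 * l) ^ 2)) (by rw [norm_pow]; exact hb2) e he0 he1 h5
  · push Not at hru
    obtain ⟨n, hn0, hn⟩ := hru
    have hfin : IsOfFinOrder β := isOfFinOrder_iff_pow_eq_one.2 ⟨n, hn0, hn⟩
    have hq0 : 0 < orderOf β := hfin.orderOf_pos
    have hprim : IsPrimitiveRoot β (orderOf β) := IsPrimitiveRoot.orderOf β
    have hcyc := cyclotomic_eq_minpoly_rat hprim hq0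
    have hphi : Nat.totient (orderOf β) ≤ 4 * l := by
      rw [← natDegree_cyclotomic (orderOf β) ℚ, hcyc]
      omega
    refine ⟨orderOf β, hq0, ?_, pow_orderOf_eq_one β⟩
    have h5 := h4 (orderOf β)
    have h6 : (Nat.totient (orderOf β)) ^ 2 ≤ (4 * l) ^ 2 := Nat.pow_le_pow_left hphi 2
    have h7 : 2 * (4 * l) ^ 2 = 32 * l ^ 2 := by ring
    omega

end Pool.Agent.Work.MP_4c4335_dv
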