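import Pool.Agent.Work.MP_4c4335_dv.Def

/-!
# Block B7: the factor
-/

open Polynomial Finset Filter

namespace Pool.Agent.Work.MP_4c4335_dv

namespace BB7

theorem dvd (q L : ℕ) : (X ^ q - 1 : ℚ[X]) ∣ fil q L := by
  have h1 : (X ^ q - 1 : ℚ[X]) ∣ X ^ (q * L) - 1 := by
    have h := sub_dvd_pow_sub_pow (X ^ q : ℚ[X]) 1 L
    rwa [one_pow, ← pow_mul] at h
  have h2 : (X ^ q - 1 : ℚ[X]) ∣ (C (1 / 2) * (X ^ q + 1)) ^ (2 * L) - 1 := by
    have h := sub_dvd_pow_sub_pow (C (1 / 2) * (X ^ q + 1) : ℚ[X]) 1 (2 * L)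
    rw [one_pow] at h
    refine dvd_trans ?_ h
    refine ⟨C (1 / 2), ?_⟩
    have h3 : (C (1 / 2) * 2 : ℚ[X]) = 1 := by
      rw [← C_ofNat, ← C_mul]
      norm_num
    linear_combination h3
  have e : fil q L = (X ^ (q * L) - 1) - ((C (1 / 2) * (X ^ q + 1)) ^ (2 * L) - 1) := by
    unfold fil
    ring
  rw [e]
  exact dvd_sub h1 h2

theorem deg (q L : ℕ) : (fil q L).natDegree ≤ 2 * q * L := by
  unfold fil
  have h1 : (X ^ (q * L) : ℚ[X]).natDegree ≤ 2 * q * L := by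
    rw [natDegree_X_pow]
    nlinarith [Nat.zero_le (q * L)]
  have h3 : (C (1 / 2) * (X ^ q + 1) : ℚ[X]).natDegree ≤ q := by
    refine (natDegree_C_mul_le _ _).trans ?_
    refine (natDegree_add_le _ _).trans ?_
    rw [natDegree_X_pow, natDegree_one]
    omega
  have h2 : ((C (1 / 2) * (X ^ q + 1)) ^ (2 * L) : ℚ[X]).natDegree ≤ 2 * q * L := by
    refine natDegree_pow_le.trans ?_
    calc 2 * L * (C (1 / 2) * (X ^ q + 1) : ℚ[X]).natDegree ≤ 2 * L * q := Nat.mul_le_mul_left _ h3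
      _ = 2 * q * L := by ring
  exact (natDegree_sub_le _ _).trans (max_le h1 h2)

theorem val (q L : ℕ) (x : ℂ) (hx : ‖x‖ = 1) :
    ‖aeval x (fil q L)‖ ≤ 1 ∧ 1 - Real.exp (-(L * ‖x ^ q - 1‖ ^ 2 / 4)) ≤ ‖aeval x (fil q L)‖ := by
  set u : ℂ := x ^ q with hu
  have hu1 : ‖u‖ = 1 := by rw [hu, norm_pow, hx, one_pow]
  set c : ℝ := ‖u + 1‖ ^ 2 / 4 with hc
  have hpar : ‖u + 1‖ ^ 2 + ‖u - 1‖ ^ 2 = 4 := by
    have h := parallelogram_law_with_norm ℝ u 1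
    rw [hu1, norm_one] at h
    nlinarith
  have hc0 : 0 ≤ c := by positivity
  have hc1 : c = 1 - ‖u - 1‖ ^ 2 / 4 := by rw [hc]; linarith
  have hcle : c ≤ 1 := by
    rw [hc1]
    have : 0 ≤ ‖u - 1‖ ^ 2 := by positivity
    linarith
  have huc : u * (starRingEnd ℂ) u = 1 := by
    rw [Complex.mul_conj', hu1]
    norm_num
  have hsq : ((1 / 2 : ℂ) * (u + 1)) ^ 2 = u * (c : ℂ) := by
    have h1 : ((c : ℝ) : ℂ) = (u + 1) * (starRingEnd ℂ) (u + 1) / 4 := by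
      rw [Complex.mul_conj', hc]
      push_cast
      rfl
    rw [h1, map_add, map_one]
    linear_combination (-(u + 1) / 4) * huc
  have hval : aeval x (fil q L) = u ^ L * (1 - ((c ^ L : ℝ) : ℂ)) := by
    unfold fil
    simp only [map_sub, map_pow, map_mul, map_add, map_one, aeval_X, aeval_C]
    have h1 : (algebraMap ℚ ℂ) (1 / 2) = (1 / 2 : ℂ) := by
      rw [eq_ratCast]
      norm_num
    rw [h1, pow_mul x q L, ← hu, pow_mul _ 2 L, hsq, mul_pow]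
    push_cast
    ring
  have hcL0 : 0 ≤ c ^ L := pow_nonneg hc0 L
  have hcL1 : c ^ L ≤ 1 := pow_le_one₀ hc0 hcle
  have hnorm : ‖aeval x (fil q L)‖ = 1 - c ^ L := by
    rw [hval, norm_mul, norm_pow, hu1, one_pow, one_mul]
    have h1 : (1 - ((c ^ L : ℝ) : ℂ)) = ((1 - c ^ L : ℝ) : ℂ) := by push_cast; rfl
    rw [h1, Complex.norm_real, Real.norm_eq_abs, abs_of_nonneg (by linarith)]
  rw [hnorm]
  refine ⟨by linarith, ?_⟩
  have h2 : c ≤ Real.exp (-(‖u - 1‖ ^ 2 / 4)) := by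
    have h := Real.add_one_le_exp (-(‖u - 1‖ ^ 2 / 4))
    rw [hc1]
    linarith
  have h3 : c ^ L ≤ Real.exp (-(L * ‖u - 1‖ ^ 2 / 4)) := by
    calc c ^ L ≤ (Real.exp (-(‖u - 1‖ ^ 2 / 4))) ^ L := pow_le_pow_left₀ hc0 h2 L
      _ = Real.exp (L * (-(‖u - 1‖ ^ 2 / 4))) := (Real.exp_nat_mul _ L).symm
      _ = Real.exp (-(L * ‖u - 1‖ ^ 2 / 4)) := by
        congr 1
        ring
  linarith

end BB7

theorem p_B7 : S_B7 :=
  ⟨fun q L => ⟨BB7.dvd q L, BB7.deg q L⟩, fun q L x hx => BB7.val q L x hx⟩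

end Pool.Agent.Work.MP_4c4335_dv
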