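import Mathlib

/-!
# Dense values of integer polynomials at points of the circle: definitions and blocks
-/

open Polynomial Finset Filter

namespace Pool.Agent.Work.MP_4c4335_dv

/-- The weight `∑ (1 + |c_j|)` of the coefficient vector `c_0, …, c_D`. -/
def wt (D : ℕ) (c : Fin (D + 1) → ℤ) : ℤ := ∑ j, (1 + |c j|)

/-- The point `e ^ (iθ)`. -/
noncomputable def ez (θ : ℝ) : ℂ := Complex.exp (θ * Complex.I)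

/-- The value `∑ c_j z ^ j` at `z = e ^ (iθ)`. -/
noncomputable def val (θ : ℝ) (D : ℕ) (c : Fin (D + 1) → ℤ) : ℂ :=
  ∑ j, (c j : ℂ) * ez θ ^ (j : ℕ)

/-- `log w = log |w| + i arg w` with `arg w ∈ [0, 2π)`, as a point of `ℂ`. -/
noncomputable def clog (w : ℂ) : ℂ := ⟨Real.log ‖w‖, toIcoMod Real.two_pi_pos 0 w.arg⟩

/-- The set `S_n(θ)`. -/
def Sn (n : ℕ) (θ : ℝ) : Set ℂ :=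
  {s | ∃ (D : ℕ) (c : Fin (D + 1) → ℤ), wt D c ≤ n ∧ val θ D c ≠ 0 ∧ s = clog (val θ D c)}

/-- The property `DPV(n, R)`. -/
def DPV (n : ℕ) (R : ℝ) (θ : ℝ) : Prop :=
  ∀ x : ℂ, x.re ∈ Set.Icc (-Real.log R) 0 → x.im ∈ Set.Icc 0 (2 * Real.pi) →
    ∃ s ∈ Sn n θ, dist x s ≤ 1 / 10

/-- `R_DPV(n, θ)`. -/
noncomputable def RDPV (n : ℕ) (θ : ℝ) : EReal :=
  sSup {x : EReal | ∃ R : ℝ, 0 < R ∧ DPV n R θ ∧ x = (R : EReal)}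

/-- The condition (D.C.-`m`). -/
def DC (m : ℝ) (θ : ℝ) : Prop :=
  ∀ᶠ q : ℕ in atTop, ∀ p : ℤ, (q : ℝ) ^ (-m) ≤ |θ - 2 * Real.pi * p / q|

/-- The dimension parameter. -/
def MM (l : ℕ) : ℕ := 1024 * l ^ 3

/-- The integer polynomials of degree `< 1024 l ^ 3` with coefficients in `{-1, 0, 1}` and value
at most `2 ^ (-l)` at `z`. -/
def SZ (z : ℂ) (l : ℕ) : Set ℤ[X] :=
  {Q | Q.natDegree < MM l ∧ (∀ i, |Q.coeff i| ≤ 1) ∧ ‖aeval z Q‖ ≤ (1 / 2) ^ l}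

/-- The same, as rational polynomials. -/
def SQ (z : ℂ) (l : ℕ) : Set ℚ[X] := (fun Q : ℤ[X] => Q.map (Int.castRingHom ℚ)) '' SZ z l

/-- The factor `X ^ (q L) - ((X ^ q + 1) / 2) ^ (2 L)`. -/
noncomputable def fil (q L : ℕ) : ℚ[X] := X ^ (q * L) - (C (1 / 2) * (X ^ q + 1)) ^ (2 * L)

/-- B1: pigeonhole. -/
def S_B1 : Prop := ∀ ζ : ℂ, ‖ζ‖ = 1 → ∀ l : ℕ, 8 ≤ l → ∃ d : Fin (4 * l) → ℤ, d ≠ 0 ∧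
  (∀ i, |d i| ≤ 1) ∧ ‖∑ i, (d i : ℂ) * ζ ^ (i : ℕ)‖ ≤ (1 / 2) ^ l

/-- B2a: congruence of traces. -/
def S_B2a : Prop := ∀ (p : ℕ), p.Prime → ∀ (K : Type) [Field K] [NumberField K]
  (b : NumberField.RingOfIntegers K),
  (p : ℤ) ∣ Algebra.trace ℤ (NumberField.RingOfIntegers K) (b ^ p) -
    Algebra.trace ℤ (NumberField.RingOfIntegers K) b

/-- B2b: equality of power sums of two multisets of complex numbers. -/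
def S_B2b : Prop := ∀ (k : ℕ) (s t : Multiset ℂ), Multiset.card s = Multiset.card t →
  Multiset.card s ≤ k →
  (∀ j < 2 * k, (s.map (fun x => x ^ j)).sum = (t.map (fun x => x ^ j)).sum) → s = t

/-- B2: an algebraic integer which is not a root of unity has a large conjugate. -/
def S_B2 : Prop := ∀ k : ℕ, 1 ≤ k → ∀ β : ℂ, β ≠ 0 → IsIntegral ℤ β →
  (minpoly ℚ β).natDegree ≤ k → (∀ n, 0 < n → β ^ n ≠ 1) →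
  ∃ β' : ℂ, aeval β' (minpoly ℚ β) = 0 ∧ 2 ≤ ‖β'‖ ^ (16 * k ^ 2)

/-- B3: digit sums are not zero. -/
def S_B3 : Prop := ∀ (k : ℕ) (ζ : ℂ), 2 ≤ ‖ζ‖ → ∀ d : Fin k → ℤ, d ≠ 0 → (∀ i, |d i| ≤ 1) →
  ∑ i, (d i : ℂ) * ζ ^ (i : ℕ) ≠ 0

/-- B4: a lower bound for the totient. -/
def S_B4 : Prop := ∀ q : ℕ, q ≤ 2 * (Nat.totient q) ^ 2

/-- B5: the roots of the greatest common divisor. -/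
def S_B5 : Prop := ∀ (z : ℂ), ‖z‖ = 1 → ∀ l : ℕ, 8 ≤ l → ∀ g : ℚ[X],
  Ideal.span (SQ z l) = Ideal.span {g} →
  g ≠ 0 ∧ g.natDegree < 4 * l ∧
    ∀ β : ℂ, aeval β g = 0 → β = 0 ∨ ∃ q : ℕ, 0 < q ∧ q ≤ 32 * l ^ 2 ∧ β ^ q = 1

/-- B6: bounded degrees in the ideal. -/
def S_B6 : Prop := ∀ (S : Set ℚ[X]) (M : ℕ), (∀ P ∈ S, P.natDegree < M) →
  (∃ P ∈ S, P ≠ 0) → ∀ y ∈ Ideal.span S, ∀ J, 2 * M ≤ J → y.natDegree < J →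
  y ∈ Submodule.span ℚ {R : ℚ[X] | ∃ P ∈ S, ∃ j < J, R = X ^ j * P}

/-- B7: the factor. -/
def S_B7 : Prop := (∀ q L : ℕ, (X ^ q - 1 : ℚ[X]) ∣ fil q L ∧ (fil q L).natDegree ≤ 2 * q * L) ∧
  ∀ (q L : ℕ) (x : ℂ), ‖x‖ = 1 →
    ‖aeval x (fil q L)‖ ≤ 1 ∧
    1 - Real.exp (-(L * ‖x ^ q - 1‖ ^ 2 / 4)) ≤ ‖aeval x (fil q L)‖

/-- B8: coefficients of a polynomial bounded on the circle. -/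
def S_B8 : Prop := ∀ y : ℚ[X], (∀ x : ℂ, ‖x‖ = 1 → ‖aeval x y‖ ≤ 1) → ∀ i, |(y.coeff i : ℝ)| ≤ 1

/-- B9: the Diophantine condition. -/
def S_B9 : Prop := ∀ m : ℕ, 1 ≤ m → ∀ θ : ℝ, DC m θ →
  ∃ c : ℝ, 0 < c ∧ c ≤ 1 ∧ ∀ q : ℕ, 0 < q → c / (q : ℝ) ^ (m - 1) ≤ ‖ez θ ^ q - 1‖

/-- B10: the test polynomial. -/
def S_B10 : Prop := ∀ m : ℕ, 1 ≤ m → ∀ θ : ℝ,
  (∃ c : ℝ, 0 < c ∧ c ≤ 1 ∧ ∀ q : ℕ, 0 < q → c / (q : ℝ) ^ (m - 1) ≤ ‖ez θ ^ q - 1‖) →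
  ∃ A : ℕ, ∀ l : ℕ, 8 ≤ l → ∀ g : ℚ[X], g ≠ 0 → g.natDegree < 4 * l →
  (∀ β : ℂ, aeval β g = 0 → β = 0 ∨ ∃ q : ℕ, 0 < q ∧ q ≤ 32 * l ^ 2 ∧ β ^ q = 1) →
  ∃ y : ℚ[X], g ∣ y ∧ y.natDegree < A * l ^ (4 * m) ∧
    (∀ x : ℂ, ‖x‖ = 1 → ‖aeval x y‖ ≤ 1) ∧ 1 / 2 ≤ ‖aeval (ez θ) y‖

/-- B11: the walk. -/
def S_B11 : Prop := ∀ (z : ℂ) (N : ℕ) (ρ : ℝ) (V : Set ℤ[X]), ‖z‖ = 1 → 0 ≤ ρ → N * ρ ≤ 1 →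
  (∀ v ∈ V, v.natDegree < N ∧ (∀ i, |v.coeff i| ≤ 1) ∧ ‖aeval z v‖ ≤ ρ) →
  ∀ y ∈ Submodule.span ℚ ((fun Q : ℤ[X] => Q.map (Int.castRingHom ℚ)) '' V),
  (∀ i, |(y.coeff i : ℝ)| ≤ 1) → 1 / 2 ≤ ‖aeval z y‖ →
  ∀ r : ℝ, 0 < r → r ≤ 1 → ∃ w : ℤ[X], w.natDegree < N ∧ (∀ i, |w.coeff i| ≤ N + 4) ∧
    r ≤ ‖aeval z w‖ ∧ ‖aeval z w‖ ≤ r + N * ρ

/-- B12: all moduli. -/
def S_B12 : Prop := ∀ m : ℕ, 1 ≤ m → ∀ θ : ℝ, DC m θ → ∃ A : ℕ, ∀ l : ℕ, 8 ≤ l →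
  ((A * l ^ (4 * m) : ℕ) : ℝ) * (1 / 2) ^ l ≤ 1 → ∀ r : ℝ, 0 < r → r ≤ 1 →
  ∃ w : ℤ[X], w.natDegree < A * l ^ (4 * m) ∧
    (∀ i, |w.coeff i| ≤ ((A * l ^ (4 * m) : ℕ) : ℤ) + 4) ∧
    r ≤ ‖aeval (ez θ) w‖ ∧
    ‖aeval (ez θ) w‖ ≤ r + ((A * l ^ (4 * m) : ℕ) : ℝ) * (1 / 2) ^ l

/-- B13: all arguments. -/
def S_B13 : Prop := ∀ θ : ℝ, (∀ q : ℕ, 0 < q → ez θ ^ q ≠ 1) → ∃ J0 : ℕ, ∀ w : ℂ, w ≠ 0 →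
  ∀ φ : ℝ, 0 ≤ φ → φ ≤ 2 * Real.pi → ∃ j ≤ J0,
    |(clog (ez θ ^ j * w)).im - φ| ≤ 1 / 25

/-- B14: from moduli to `DPV`. -/
def S_B14 : Prop := ∀ θ : ℝ, (∀ q : ℕ, 0 < q → ez θ ^ q ≠ 1) → ∃ J0 : ℕ, ∀ (N : ℕ) (ρ : ℝ),
  (∀ r : ℝ, 0 < r → r ≤ 1 → ∃ w : ℤ[X], w.natDegree < N ∧
    (∀ i, |w.coeff i| ≤ (N : ℤ) + 4) ∧ r ≤ ‖aeval (ez θ) w‖ ∧ ‖aeval (ez θ) w‖ ≤ r + ρ) →
  ∀ n : ℕ, N + J0 + N * (N + 4) + 1 ≤ n → ∀ R : ℝ, 1 ≤ R → 20 * ρ * R ≤ 1 → DPV n R θ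

/-- B15: asymptotics. -/
def S_B15 : Prop := ∀ A J0 m : ℕ, 1 ≤ m → ∀ a : ℝ, a < 1 / (8 * m) → ∀ᶠ n : ℕ in atTop,
  ∃ l : ℕ, 8 ≤ l ∧ ((A * l ^ (4 * m) : ℕ) : ℝ) * (1 / 2) ^ l ≤ 1 ∧
    A * l ^ (4 * m) + J0 + A * l ^ (4 * m) * (A * l ^ (4 * m) + 4) + 1 ≤ n ∧
    20 * (((A * l ^ (4 * m) : ℕ) : ℝ) * (1 / 2) ^ l) * Real.exp ((n : ℝ) ^ a) ≤ 1

/-- B16: almost every angle. -/
def S_B16 : Prop := ∀ᵐ θ : ℝ, DC 3 θ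

end Pool.Agent.Work.MP_4c4335_dv
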